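import Pool.Agent.W258.P4.Spec2

set_option autoImplicit false
open Matrix
open scoped ComplexOrder BigOperators

namespace Pool.Agent.W15.P4

open Pool.W258.P4

/-- the function of the permutation with index s -/
def gp (s : ℕ) (i : Fin 4) : Fin 4 := Fin.ofNat 4 (dg 2 (gtab s) i)

def gi (s : ℕ) (j : Fin 4) : Fin 4 :=
  if gp s 0 = j then 0 else if gp s 1 = j then 1 else if gp s 2 = j then 2 else 3

theorem gl : ∀ s : Fin 24, ∀ i : Fin 4, gi s (gp s i) = i := by decide +kernel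

theorem gr : ∀ s : Fin 24, ∀ i : Fin 4, gp s (gi s i) = i := by decide +kernel

/-- the permutation with index s -/
def ee (s : Fin 24) : Equiv.Perm (Fin 4) := ⟨gp s, gi s, gl s, gr s⟩

theorem ee_inj : ∀ s t : Fin 24, (∀ i, gp s i = gp t i) → s = t := by decide +kernel

theorem ee_bij : Function.Bijective ee := by
  rw [Fintype.bijective_iff_injective_and_card]
  refine ⟨fun s t h => ee_inj s t fun i => ?_, ?_⟩
  · exact congrArg (fun f : Equiv.Perm (Fin 4) => f i) h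
  · rw [Fintype.card_perm, Fintype.card_fin, Fintype.card_fin]
    rfl

theorem ee_sign : ∀ s : Fin 24, Equiv.Perm.sign (ee s) = if dg 1 SG s = 0 then 1 else -1 := by
  decide +kernel

theorem tm1 : ∀ s : Fin 24, ∀ k : Fin 4, Fin.ofNat 4 (tMf s k / 4) = k := by decide +kernel
theorem tm2 : ∀ s : Fin 24, ∀ k : Fin 4, Fin.ofNat 4 (tMf s k % 4) = k := by decide +kernel
theorem tm3 : ∀ s : Fin 24, ∀ k : Fin 4, Fin.ofNat 4 (tMf s (4 + k) / 4) = k := by decide +kernel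
theorem tm4 : ∀ s : Fin 24, ∀ k : Fin 4, Fin.ofNat 4 (tMf s (4 + k) % 4) = ee s k := by
  decide +kernel

theorem c31 : ∀ s : Fin 24, ∀ p q : Fin 4, tcoef 4 false s p q =
    (if p = q then 1 else 0) - (if ee s p = q then 1 else 0) := by decide +kernel

theorem c211 : ∀ s : Fin 24, ∀ p q : Fin 4, tcoef 4 true s p q =
    4 * (if p = q then 1 else 0) - 4 * (Equiv.Perm.sign (ee s) : ℤ) * (if ee s p = q then 1 else 0)
      - (1 - (Equiv.Perm.sign (ee s) : ℤ)) := by decide +kernel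

theorem ofn (p : Fin 4) : Fin.ofNat 4 (p : ℕ) = p := Fin.ext (Nat.mod_eq_of_lt p.2)

theorem evM_t (A : Matrix (Fin 4) (Fin 4) ℂ) (σ : Equiv.Perm (Fin 4)) (s : Fin 24) :
    evM A σ (tMf s) = (∏ k, A k k) * ∏ t, A (σ t) (σ (ee s t)) := by
  have h8 : Finset.range 8 = Finset.range (4 + 4) := rfl
  rw [evM, h8, Finset.prod_range_add, Finset.prod_range, Finset.prod_range]
  congr 1
  · simp only [tm1, tm2]
    exact Equiv.prod_comp σ (fun k => A k k)
  · simp only [tm3, tm4]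

theorem phi_t (A : Matrix (Fin 4) (Fin 4) ℂ) (v : Fin 4 → ℂ) (p q : Fin 4) (s : Fin 24) :
    Phi 4 A (fun n => v (Fin.ofNat 4 n)) p q (tMf s) =
      (∑ σ : Equiv.Perm (Fin 4), (starRingEnd ℂ) (v (σ p)) * v (σ q) *
        ((∏ k, A k k) * ∏ t, A (σ t) (σ (ee s t)))).re := by
  rw [Phi]
  congr 1
  refine Finset.sum_congr rfl fun σ _ => ?_
  rw [evM_t]
  simp only [pactN, if_true, ofn]

/-- sum over the table -/
theorem sum_tab (F : Equiv.Perm (Fin 4) → ℂ) : ∑ s : Fin 24, F (ee s) = ∑ g, F g :=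
  Fintype.sum_bijective ee ee_bij _ _ fun _ => rfl

theorem conj_sum (σ : Equiv.Perm (Fin 4)) (F : Equiv.Perm (Fin 4) → ℂ) :
    ∑ g, F (σ * g * σ⁻¹) = ∑ ρ, F ρ :=
  Fintype.sum_equiv (MulAut.conj σ).toEquiv _ _ fun g => by simp [MulAut.conj_apply]

theorem pr_conj (A : Matrix (Fin 4) (Fin 4) ℂ) (σ g : Equiv.Perm (Fin 4)) :
    pr A (σ * g * σ⁻¹) = ∏ t, A (σ t) (σ (g t)) := by
  rw [pr, ← Equiv.prod_comp σ]
  simp

/-- The general form. -/
theorem gen (A : Matrix (Fin 4) (Fin 4) ℂ) (v : Fin 4 → ℂ)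
    (c : Fin 24 → Fin 4 → Fin 4 → ℂ) (D : Equiv.Perm (Fin 4) → ℂ)
    (hD : ∀ s σ, ∑ p, ∑ q, c s p q * ((starRingEnd ℂ) (v (σ p)) * v (σ q)) =
      D (σ * ee s * σ⁻¹)) :
    ∑ s : Fin 24, ∑ p : Fin 4, ∑ q : Fin 4, c s p q *
      (∑ σ : Equiv.Perm (Fin 4), (starRingEnd ℂ) (v (σ p)) * v (σ q) *
        ((∏ k, A k k) * ∏ t, A (σ t) (σ (ee s t)))) =
    24 * ((∏ k, A k k) * ∑ ρ, pr A ρ * D ρ) := by
  have h1 : ∀ s : Fin 24, ∑ p : Fin 4, ∑ q : Fin 4, c s p q *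
      (∑ σ : Equiv.Perm (Fin 4), (starRingEnd ℂ) (v (σ p)) * v (σ q) *
        ((∏ k, A k k) * ∏ t, A (σ t) (σ (ee s t)))) =
      ∑ σ : Equiv.Perm (Fin 4), (∏ k, A k k) * (pr A (σ * ee s * σ⁻¹) * D (σ * ee s * σ⁻¹)) := by
    intro s
    simp only [Finset.mul_sum]
    rw [Finset.sum_congr rfl fun p _ => Finset.sum_comm, Finset.sum_comm]
    refine Finset.sum_congr rfl fun σ _ => ?_
    rw [pr_conj, ← hD, Finset.mul_sum, Finset.mul_sum]
    refine Finset.sum_congr rfl fun p _ => ?_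
    rw [Finset.mul_sum, Finset.mul_sum]
    refine Finset.sum_congr rfl fun q _ => ?_
    ring
  rw [Finset.sum_congr rfl fun s _ => h1 s, Finset.sum_comm]
  have h2 : ∀ σ : Equiv.Perm (Fin 4), ∑ s : Fin 24, (∏ k, A k k) *
      (pr A (σ * ee s * σ⁻¹) * D (σ * ee s * σ⁻¹)) = (∏ k, A k k) * ∑ ρ, pr A ρ * D ρ := by
    intro σ
    rw [sum_tab (fun g => (∏ k, A k k) * (pr A (σ * g * σ⁻¹) * D (σ * g * σ⁻¹))),
      conj_sum σ (fun ρ => (∏ k, A k k) * (pr A ρ * D ρ)), Finset.mul_sum]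
  rw [Finset.sum_congr rfl fun σ _ => h2 σ, Finset.sum_const, Finset.card_univ,
    Fintype.card_perm, Fintype.card_fin, nsmul_eq_mul]
  norm_num [Nat.factorial]

theorem to_c (A : Matrix (Fin 4) (Fin 4) ℂ) (v : Fin 4 → ℂ) (b : Bool) :
    ∑ s ∈ Finset.range 24, ∑ p ∈ Finset.range 4, ∑ q ∈ Finset.range 4,
      ((tcoef 4 b s p q : ℤ) : ℝ) * Phi 4 A (fun n => v (Fin.ofNat 4 n)) p q (tMf s) =
    (∑ s : Fin 24, ∑ p : Fin 4, ∑ q : Fin 4, ((tcoef 4 b s p q : ℤ) : ℂ) *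
      (∑ σ : Equiv.Perm (Fin 4), (starRingEnd ℂ) (v (σ p)) * v (σ q) *
        ((∏ k, A k k) * ∏ t, A (σ t) (σ (ee s t))))).re := by
  rw [Finset.sum_range, Complex.re_sum]
  refine Finset.sum_congr rfl fun s _ => ?_
  rw [Finset.sum_range, Complex.re_sum]
  refine Finset.sum_congr rfl fun p _ => ?_
  rw [Finset.sum_range, Complex.re_sum]
  refine Finset.sum_congr rfl fun q _ => ?_
  rw [phi_t, ← Complex.ofReal_intCast, Complex.re_ofReal_mul]

theorem tgt31_ : P_TGT31 := by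
  intro A v _
  rw [to_c, gen A v _ (fun ρ => ∑ i, (starRingEnd ℂ) (v i) * (v i - v (ρ i))) ?_]
  · rw [Q31, ← Complex.ofReal_ofNat, Complex.re_ofReal_mul]
  · intro s σ
    simp only [c31]
    rw [← Equiv.sum_comp σ (fun i => (starRingEnd ℂ) (v i) * (v i - v ((σ * ee s * σ⁻¹) i)))]
    refine Finset.sum_congr rfl fun p _ => ?_
    push_cast
    simp only [sub_mul, ite_mul, one_mul, zero_mul, Finset.sum_sub_distrib, Finset.sum_ite_eq,
      Finset.mem_univ, if_true]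
    simp [mul_sub]

theorem tgt211_ : P_TGT211 := by
  intro A v _ hv
  rw [to_c, gen A v _ (fun ρ => 4 * ∑ i, (starRingEnd ℂ) (v i) * (v i - sg ρ * v (ρ i))) ?_]
  · rw [Q211]
    have : (24 : ℂ) * ((∏ k, A k k) * ∑ ρ, pr A ρ * (4 * ∑ i, (starRingEnd ℂ) (v i) *
        (v i - sg ρ * v (ρ i)))) = ((96 : ℝ) : ℂ) * ((∏ k, A k k) * ∑ ρ, pr A ρ *
          ∑ i, (starRingEnd ℂ) (v i) * (v i - sg ρ * v (ρ i))) := by
      rw [Finset.mul_sum, Finset.mul_sum, Finset.mul_sum, Finset.mul_sum]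
      refine Finset.sum_congr rfl fun ρ _ => ?_
      push_cast
      ring
    rw [this, Complex.re_ofReal_mul]
  · intro s σ
    simp only [c211]
    have hv2 : ∑ q, v (σ q) = 0 := by
      rw [Equiv.sum_comp σ v, hv]
    have hs : sg (σ * ee s * σ⁻¹) = ((Equiv.Perm.sign (ee s) : ℤ) : ℂ) := by
      rw [sg, Equiv.Perm.sign_mul, Equiv.Perm.sign_mul, Equiv.Perm.sign_inv, mul_right_comm,
        Int.units_mul_self, one_mul]
    rw [hs, ← Equiv.sum_comp σ (fun i => (starRingEnd ℂ) (v i) *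
      (v i - ((Equiv.Perm.sign (ee s) : ℤ) : ℂ) * v ((σ * ee s * σ⁻¹) i))), Finset.mul_sum]
    refine Finset.sum_congr rfl fun p _ => ?_
    push_cast
    have e1 : ∀ q, (4 * (if p = q then (1 : ℂ) else 0) -
        4 * ((Equiv.Perm.sign (ee s) : ℤ) : ℂ) * (if ee s p = q then (1 : ℂ) else 0) -
        (1 - ((Equiv.Perm.sign (ee s) : ℤ) : ℂ))) * ((starRingEnd ℂ) (v (σ p)) * v (σ q)) =
        (if p = q then 4 * ((starRingEnd ℂ) (v (σ p)) * v (σ q)) else 0) -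
        (if ee s p = q then 4 * ((Equiv.Perm.sign (ee s) : ℤ) : ℂ) *
          ((starRingEnd ℂ) (v (σ p)) * v (σ q)) else 0) -
        ((1 - ((Equiv.Perm.sign (ee s) : ℤ) : ℂ)) * (starRingEnd ℂ) (v (σ p))) * v (σ q) := by
      intro q
      split_ifs <;> ring
    rw [Finset.sum_congr rfl fun q _ => e1 q, Finset.sum_sub_distrib, Finset.sum_sub_distrib,
      Finset.sum_ite_eq, Finset.sum_ite_eq, ← Finset.mul_sum, hv2]
    simp
    ring

end Pool.Agent.W15.P4
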